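import Pool.Agent.U435.MMD.Res

/-!
# A vertical non-tree edge whose lower end is a leaf
-/

set_option autoImplicit false

namespace Pool.Agent.U435.MMD

open SimpleGraph Pool.Agent.Helper431

variable {V : Type*} {G : SimpleGraph V} {r : V} {dep : V → ℕ} {p : V → V}

theorem leaf_sub {y : V} (hl : ∀ w, w ≠ r → p w ≠ y) {s : V} (h : Sub r p y s) : s = y := by
  induction h with
  | base x hx => exact hx
  | step s hs h ih => exact absurd ih (hl s (ne_root.mp hs))

theorem core (B : BFS G {r} dep p) (M : Mt G r p)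
    (h2 : ∀ w : V, (G.induce ({w}ᶜ : Set V)).Preconnected) {x y : V} (hxy : NT G {r} p x y)
    (hW : ∀ w, ∃ s ∈ WS G {r} p, s ≠ x ∧ s ≠ y ∧ s ≠ w) {u v : V} (huv : u ≠ v)
    (hur : u ≠ r) (hvr : v ≠ r) (hux : Sub r p u x) (hvy : Sub r p v y)
    (hu : ∀ s ∈ WS G {r} p, Sub r p u s → s = x) (hv : ∀ s ∈ WS G {r} p, Sub r p v s → s = y)
    (ih : p u ≠ p v → ∃ s ∈ WS G {r} p, s ≠ x ∧ s ≠ y ∧ G.dist s (p u) ≠ G.dist s (p v)) :
    ∃ s ∈ WS G {r} p, s ≠ x ∧ s ≠ y ∧ G.dist s u ≠ G.dist s v ∧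
      min (G.dist s (p u)) (G.dist s u) ≠ min (G.dist s (p v)) (G.dist s v) := by
  have hb := boundary B M hxy hu hv hux hvy
  by_cases hp : p u = p v
  · exfalso
    obtain ⟨z, hz, hzx, hzy, hzw⟩ := hW (p u)
    refine cut h2 hb hp (padj B hur).ne (z := z) ?_ hzw
    rintro (h | h)
    · exact hzx (hu z hz h)
    · exact hzy (hv z hz h)
  · obtain ⟨s, hs, hsx, hsy, h⟩ := ih hp
    have hsQ : ¬ (Sub r p u s ∨ Sub r p v s) := by
      rintro (h | h)
      · exact hsx (hu s hs h)
      · exact hsy (hv s hs h)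
    refine ⟨s, hs, hsx, hsy, ?_⟩
    rcases Nat.lt_or_ge (G.dist s (p u)) (G.dist s (p v)) with h' | h'
    · have := climb B hb huv hur hsQ h'
      omega
    · have := climb B hb.symm huv.symm hvr (fun h => hsQ h.symm) (by omega :
        G.dist s (p v) < G.dist s (p u))
      omega

/-- Data for the case of a vertical non-tree edge `x y` with lower end `y` a leaf. -/
structure CA (G : SimpleGraph V) (r : V) (dep : V → ℕ) (p : V → V) (x y : V) : Prop where
  B : BFS G {r} dep p
  M : Mt G r p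
  h2 : ∀ w : V, (G.induce ({w}ᶜ : Set V)).Preconnected
  hgood : ∀ v, v ≠ r → ∃ s ∈ WS G {r} p, Sub r p v s
  hxy : NT G {r} p x y
  hd : dep y = dep x + 1
  hl : ∀ w, w ≠ r → p w ≠ y
  hW : ∀ w, ∃ s ∈ WS G {r} p, s ≠ x ∧ s ≠ y ∧ s ≠ w

variable {x y : V}

theorem CA.hA [Fintype V] [DecidableEq V] (H : CA G r dep p x y) :
    ∀ q q', G.Adj q q' → dep q' = dep q + 1 → p q' ≠ q →
      q ∈ ((Wf G {r} p).erase x).erase y ∨
        ∀ s ∈ ((Wf G {r} p).erase x).erase y, ¬ Desc G dep q' s := by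
  intro q q' hq hd hp
  have B := H.B
  have hnt : NT G {r} p q q' := nt_of hq (B.p_ne (by omega) hq.ne) hp
  by_cases hqx : q = x
  · right
    subst hqx
    have : q' = y := H.M _ _ _ hnt H.hxy
    subst this
    intro s hs hD
    rcases desc_cases B _ q' s rfl hD with h | ⟨q1, q2, h1, h2, h3, h4, h5⟩
    · have := leaf_sub H.hl h
      subst this
      exact absurd rfl (Finset.mem_erase.mp hs).1
    · have := leaf_sub H.hl h1
      subst this
      have h6 : NT G {r} p q1 q2 := nt_of h2 (B.p_ne (by omega) h2.ne) h4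
      have h7 : q2 = q := H.M _ _ _ h6 (BFS.nt_symm hnt)
      subst h7
      omega
  · by_cases hqy : q = y
    · subst hqy
      have : q' = x := H.M _ _ _ hnt (BFS.nt_symm H.hxy)
      subst this
      have := H.hd
      omega
    · left
      exact Finset.mem_erase.mpr ⟨hqy, Finset.mem_erase.mpr ⟨hqx, mem_Wf.mpr ⟨q', hnt⟩⟩⟩

theorem mem_A0 [Fintype V] [DecidableEq V] {s : V} :
    s ∈ ((Wf G {r} p).erase x).erase y ↔ s ∈ WS G {r} p ∧ s ≠ x ∧ s ≠ y := by
  rw [Finset.mem_erase, Finset.mem_erase, mem_Wf]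
  tauto

/-- If the rest of `S` misses both subtrees, these are chains above `x` and `y`. -/
theorem CA.chains (H : CA G r dep p x y) {u v : V} (huv : u ≠ v) (hd : dep u = dep v)
    (hur : u ≠ r) (hvr : v ≠ r)
    (hno : ¬ ∃ s ∈ WS G {r} p, (s ≠ x ∧ s ≠ y) ∧ (Sub r p u s ∨ Sub r p v s)) :
    ((Sub r p u x ∧ Sub r p v y) ∧ (∀ s ∈ WS G {r} p, Sub r p u s → s = x) ∧
      (∀ s ∈ WS G {r} p, Sub r p v s → s = y)) ∨
    ((Sub r p u y ∧ Sub r p v x) ∧ (∀ s ∈ WS G {r} p, Sub r p u s → s = y) ∧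
      (∀ s ∈ WS G {r} p, Sub r p v s → s = x)) := by
  have B := H.B
  obtain ⟨su, hsu, hsu'⟩ := H.hgood u hur
  obtain ⟨sv, hsv, hsv'⟩ := H.hgood v hvr
  have key : ∀ s ∈ WS G {r} p, Sub r p u s ∨ Sub r p v s → s = x ∨ s = y := by
    intro s hs h
    by_contra hcon
    push Not at hcon
    exact hno ⟨s, hs, hcon, h⟩
  have no2 : ∀ s, Sub r p u s → Sub r p v s → False := fun s h h' => huv (sub_unique B h h' hd)
  rcases key su hsu (Or.inl hsu') with h1 | h1 <;> rcases key sv hsv (Or.inr hsv') with h3 | h3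
  · exact absurd (h1.trans h3.symm ▸ hsu') (fun h => no2 sv (by rwa [h1, ← h3] at hsu') hsv')
  · left
    subst h1 h3
    refine ⟨⟨hsu', hsv'⟩, ?_, ?_⟩
    · intro s hs h
      rcases key s hs (Or.inl h) with h' | h'
      · exact h'
      · subst h'; exact (no2 s h hsv').elim
    · intro s hs h
      rcases key s hs (Or.inr h) with h' | h'
      · subst h'; exact (no2 s hsu' h).elim
      · exact h'
  · right
    subst h1 h3
    refine ⟨⟨hsu', hsv'⟩, ?_, ?_⟩
    · intro s hs h
      rcases key s hs (Or.inl h) with h' | h'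
      · subst h'; exact (no2 s h hsv').elim
      · exact h'
    · intro s hs h
      rcases key s hs (Or.inr h) with h' | h'
      · exact h'
      · subst h'; exact (no2 s hsu' h).elim
  · exact absurd hsv' (fun h => no2 sv (by rwa [h1, ← h3] at hsu') hsv')

theorem CA.hW' (H : CA G r dep p x y) : ∀ w, ∃ s ∈ WS G {r} p, s ≠ y ∧ s ≠ x ∧ s ≠ w := by
  intro w
  obtain ⟨s, hs, h1, h2, h3⟩ := H.hW w
  exact ⟨s, hs, h2, h1, h3⟩

theorem CA.climb [Fintype V] (H : CA G r dep p x y) : ∀ (n : ℕ) (u v : V), dep u = n →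
    dep v = n → u ≠ v → ∃ s ∈ WS G {r} p, s ≠ x ∧ s ≠ y ∧ G.dist s u ≠ G.dist s v := by
  classical
  have B := H.B
  intro n
  induction n with
  | zero =>
    intro u v hu hv huv
    exact absurd ((eq_r B hu).trans (eq_r B hv).symm) huv
  | succ n ih =>
    intro u v hu hv huv
    have hur : u ≠ r := by
      rintro rfl
      rw [dep_r B] at hu; omega
    have hvr : v ≠ r := by
      rintro rfl
      rw [dep_r B] at hv; omega
    by_cases hno : ∃ s ∈ WS G {r} p, (s ≠ x ∧ s ≠ y) ∧ (Sub r p u s ∨ Sub r p v s)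
    · obtain ⟨s, hs, hs', hs''⟩ := hno
      obtain ⟨t, ht, h⟩ := vstar B _ H.hA huv (hu.trans hv.symm)
        ⟨s, mem_A0.mpr ⟨hs, hs'.1, hs'.2⟩, hs''⟩
      rw [mem_A0] at ht
      refine ⟨t, ht.1, ht.2.1, ht.2.2, ?_⟩
      unfold Desc at h
      omega
    · have ih' : p u ≠ p v → ∃ s ∈ WS G {r} p, s ≠ x ∧ s ≠ y ∧
          G.dist s (p u) ≠ G.dist s (p v) := by
        intro hp
        have e1 := pdep B hur
        have e2 := pdep B hvr
        exact ih (p u) (p v) (by omega) (by omega) hp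
      rcases H.chains huv (hu.trans hv.symm) hur hvr hno with ⟨⟨h1, h2⟩, h3, h4⟩ |
        ⟨⟨h1, h2⟩, h3, h4⟩
      · obtain ⟨s, hs, hsx, hsy, h, -⟩ := core B H.M H.h2 H.hxy H.hW huv hur hvr h1 h2 h3 h4 ih'
        exact ⟨s, hs, hsx, hsy, h⟩
      · obtain ⟨s, hs, hsy, hsx, h, -⟩ := core B H.M H.h2 (BFS.nt_symm H.hxy) H.hW' huv hur hvr
          h1 h2 h3 h4 (fun hp => by
            obtain ⟨s, hs, h1, h2, h3⟩ := ih' hp
            exact ⟨s, hs, h2, h1, h3⟩)
        exact ⟨s, hs, hsx, hsy, h⟩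

theorem CA.edges [Fintype V] (H : CA G r dep p x y) {A : Finset V}
    (hA : ∀ s ∈ WS G {r} p, s ≠ x → s ∈ A) {a b a' b' : V} (hab : G.Adj a b)
    (hd : dep b = dep a + 1) (hab' : G.Adj a' b') (hd' : dep b' = dep a' + 1)
    (hda : dep a = dep a') (hbb : b ≠ b') : Rz G A a b a' b' := by
  classical
  have B := H.B
  have hbr : b ≠ r := by
    rintro rfl
    rw [dep_r B] at hd; omega
  have hbr' : b' ≠ r := by
    rintro rfl
    rw [dep_r B] at hd'; omega
  by_cases hno : ∃ s ∈ WS G {r} p, (s ≠ x ∧ s ≠ y) ∧ (Sub r p b s ∨ Sub r p b' s)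
  · obtain ⟨s, hs, hs', hs''⟩ := hno
    obtain ⟨t, ht, h⟩ := vstar B _ H.hA hbb (by omega)
      ⟨s, mem_A0.mpr ⟨hs, hs'.1, hs'.2⟩, hs''⟩
    rw [mem_A0] at ht
    exact rz_vert B (hA t ht.1 ht.2.1) h hd hd' hda
  · have key : ∀ {a b a' b' : V}, G.Adj a b → dep b = dep a + 1 → G.Adj a' b' →
        dep b' = dep a' + 1 → dep a = dep a' → b ≠ b' → b ≠ r → b' ≠ r →
        Sub r p b x → Sub r p b' y → (∀ s ∈ WS G {r} p, Sub r p b s → s = x) →
        (∀ s ∈ WS G {r} p, Sub r p b' s → s = y) → Rz G A a b a' b' := by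
      intro a b a' b' hab hd hab' hd' hda hbb hbr hbr' h1 h2 h3 h4
      have hpa : p b = a := by
        by_contra hp
        have hnt : NT G {r} p a b := nt_of hab (B.p_ne (by omega) hab.ne) hp
        have hbx : b = x := h3 b ⟨a, BFS.nt_symm hnt⟩ (sub_refl b)
        subst hbx
        have : a = y := H.M _ _ _ (BFS.nt_symm hnt) H.hxy
        subst this
        have := H.hd
        omega
      have hpa' : p b' = a' := by
        by_contra hp
        have hnt : NT G {r} p a' b' := nt_of hab' (B.p_ne (by omega) hab'.ne) hp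
        have hby : b' = y := h4 b' ⟨a', BFS.nt_symm hnt⟩ (sub_refl b')
        subst hby
        have e1 := desc_le (sub_desc B h1)
        have := H.hd
        omega
      subst hpa hpa'
      obtain ⟨s, hs, hsx, hsy, -, h⟩ := core B H.M H.h2 H.hxy H.hW hbb hbr hbr' h1 h2 h3 h4
        (fun hp => H.climb _ _ _ rfl hda.symm hp)
      exact ⟨s, hA s hs hsx, h⟩
    rcases H.chains hbb (by omega) hbr hbr' hno with ⟨⟨h1, h2⟩, h3, h4⟩ | ⟨⟨h1, h2⟩, h3, h4⟩
    · exact key hab hd hab' hd' hda hbb hbr hbr' h1 h2 h3 h4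
    · exact (key hab' hd' hab hd hda.symm hbb.symm hbr' hbr h2 h1 h4 h3).swap

theorem CA.resolve [Fintype V] [DecidableEq V] (H : CA G r dep p x y) (A : Finset V)
    (hAe : A = insert r ((Wf G {r} p).erase x)) :
    ∀ a b c d, El G a b → El G c d → s(a, b) ≠ s(c, d) → Rz G A a b c d := by
  have B := H.B
  have hA : ∀ s ∈ WS G {r} p, s ≠ x → s ∈ A := by
    intro s hs hsz
    rw [hAe]
    exact Finset.mem_insert_of_mem (Finset.mem_erase.mpr ⟨hsz, mem_Wf.mpr hs⟩)
  have hbr : ∀ a b, dep b = dep a + 1 → b ≠ r := by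
    rintro a b h rfl
    rw [dep_r B] at h; omega
  have hyx : y ≠ x := H.hxy.1.ne.symm
  have hyW : y ∈ WS G {r} p := ⟨x, BFS.nt_symm H.hxy⟩
  have hDxy : Desc G dep x y := by
    unfold Desc
    rw [dist_eq_one_iff_adj.mpr H.hxy.1.symm, H.hd]; omega
  have hF1 : ∀ b, b ≠ r → ∃ s ∈ A, Desc G dep b s := by
    intro b hb
    obtain ⟨s, hs, hs'⟩ := H.hgood b hb
    by_cases hsx : s = x
    · subst hsx
      exact ⟨y, hA y hyW hyx, desc_trans B (sub_desc B hs') hDxy⟩
    · exact ⟨s, hA s hs hsx, sub_desc B hs'⟩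
  apply resolve_all B A (by rw [hAe]; exact Finset.mem_insert_self _ _)
  · intro u v huv hd
    obtain ⟨s, hs, hsx, hsy, h⟩ := H.climb _ u v hd rfl huv
    exact ⟨s, hA s hs hsx, h⟩
  · intro a b a' b' hab hd hab' hd' hda hbb
    exact H.edges hA hab hd hab' hd' hda hbb
  · intro a b v _ hd hv'
    obtain ⟨s, hs, hs'⟩ := hF1 b (hbr a b hd)
    exact rz_desc B hs hs' hd hv' hv'
  · intro a b c d _ hd _ hcd hca
    obtain ⟨s, hs, hs'⟩ := hF1 b (hbr a b hd)
    exact rz_desc B hs hs' hd hca (by omega)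
  · intro a a' b hab hab' hd hd' hne
    have key : ∀ {a a' : V}, G.Adj a b → G.Adj a' b → dep b = dep a + 1 → dep b = dep a' + 1 →
        a ≠ a' → p b = a → Rz G A a b a' b := by
      intro a a' hab hab' hd hd' hne hp
      have hpa' : p b ≠ a' := fun h => hne (hp.symm.trans h)
      have hnt : NT G {r} p a' b := nt_of hab' (B.p_ne (by omega) hab'.ne) hpa'
      by_cases hax : a' = x
      · subst hax
        have hby : b = y := H.M _ _ _ hnt H.hxy
        subst hby
        obtain ⟨s, hs, hsx, hsy, h⟩ := H.climb _ a' a rfl (by omega) hne.symm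
        refine ⟨s, hA s hs hsx, ?_⟩
        obtain ⟨z, hz, hz'⟩ := exists_next B.conn (Ne.symm hsy)
        have hzz : z = a ∨ z = a' := by
          by_cases h1 : p b = z
          · left; rw [← h1, hp]
          · by_cases h2 : p z = b
            · have hzr : z ≠ r := by
                rintro rfl
                rw [B.p_root z rfl] at h2
                exact hz.ne h2.symm
              exact absurd h2 (H.hl z hzr)
            · right
              exact H.M _ _ _ (nt_of hz h1 h2) (BFS.nt_symm H.hxy)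
        have e1 : G.dist b s = G.dist s b := dist_comm
        have e2 : G.dist z s = G.dist s z := dist_comm
        rcases hzz with rfl | rfl
        · omega
        · omega
      · refine ⟨a', hA a' ⟨b, hnt⟩ hax, ?_⟩
        have e1 := dist_pos B hne.symm
        have e2 := dist_pos B hab'.ne
        have h0 : G.dist a' a' = 0 := dist_self
        omega
    by_cases hp : p b = a
    · exact key hab hab' hd hd' hne hp
    · by_cases hp' : p b = a'
      · exact (key hab' hab hd' hd hne.symm hp').swap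
      · exfalso
        have h1 : NT G {r} p a b := nt_of hab (B.p_ne (by omega) hab.ne) hp
        have h2 : NT G {r} p a' b := nt_of hab' (B.p_ne (by omega) hab'.ne) hp'
        exact hne (H.M _ _ _ (BFS.nt_symm h1) (BFS.nt_symm h2))
  · intro a b v hab hd _
    refine rz_horiz B hA ?_ hab hd
    intro c hc hdc
    exfalso
    have : c = y := H.M _ _ _ (BFS.nt_symm hc) H.hxy
    subst this
    have := H.hd
    omega
  · intro a b c d hab hcd _ _ _ hne
    exact rz_nt B hA (Or.inl H.M) hab hcd hne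

end Pool.Agent.U435.MMD
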