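import Pool.Agent.U435.MMD.CaseA

/-!
# All non-tree edges are horizontal and all their ends are leaves
-/

set_option autoImplicit false

namespace Pool.Agent.U435.MMD

open SimpleGraph Pool.Agent.Helper431

variable {V : Type*} {G : SimpleGraph V} {r : V} {dep : V → ℕ} {p : V → V}

theorem desc_sub (B : BFS G {r} dep p) (H : ∀ a b, NT G {r} p a b → dep a = dep b) {v s : V}
    (h : Desc G dep v s) : Sub r p v s := by
  rcases desc_cases B _ v s rfl h with h | ⟨q, q', -, h2, h3, h4, -⟩
  · exact h
  · have := H q q' (nt_of h2 (B.p_ne (by omega) h2.ne) h4)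
    omega

theorem iter_sub (B : BFS G {r} dep p) (y : V) : ∀ i, i ≤ dep y →
    Sub r p (p^[i] y) y ∧ dep (p^[i] y) + i = dep y := by
  intro i
  induction i with
  | zero => intro _; exact ⟨sub_refl y, by simp⟩
  | succ i ih =>
    intro hi
    obtain ⟨h1, h2⟩ := ih (by omega)
    have hr : p^[i] y ≠ r := by
      intro h
      rw [h, dep_r B] at h2
      omega
    rw [Function.iterate_succ_apply']
    refine ⟨sub_up hr h1, ?_⟩
    have := pdep B hr
    omega

theorem sub_root (B : BFS G {r} dep p) : ∀ (n : ℕ) (s : V), dep s = n → Sub r p r s := by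
  intro n
  induction n with
  | zero =>
    intro s hs
    rw [eq_r B hs]; exact sub_refl r
  | succ n ih =>
    intro s hs
    have hr : s ≠ r := by
      rintro rfl
      rw [dep_r B] at hs; omega
    exact sub_step hr (ih (p s) (by have := pdep B hr; omega))

/-- Data for the case that all non-tree edges are horizontal and have leaves as ends. -/
structure CB (G : SimpleGraph V) (r : V) (dep : V → ℕ) (p : V → V) (x y : V) : Prop where
  B : BFS G {r} dep p
  M : Mt G r p
  h2 : ∀ w : V, (G.induce ({w}ᶜ : Set V)).Preconnected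
  hgood : ∀ v, v ≠ r → ∃ s ∈ WS G {r} p, Sub r p v s
  hxy : NT G {r} p x y
  H : ∀ a b, NT G {r} p a b → dep a = dep b
  L : ∀ s ∈ WS G {r} p, ∀ w, w ≠ r → p w ≠ s
  hW : ∀ w, ∃ s ∈ WS G {r} p, s ≠ x ∧ s ≠ y ∧ s ≠ w

variable {x y : V}

theorem CB.symm (C : CB G r dep p x y) : CB G r dep p y x where
  B := C.B
  M := C.M
  h2 := C.h2
  hgood := C.hgood
  hxy := BFS.nt_symm C.hxy
  H := C.H
  L := C.L
  hW := fun w => by
    obtain ⟨s, hs, h1, h2, h3⟩ := C.hW w
    exact ⟨s, hs, h2, h1, h3⟩

/-- Below level `i` above `x` and `y` the two chains have no further end of a non-tree edge. -/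
def PP (G : SimpleGraph V) (r : V) (p : V → V) (x y : V) (i : ℕ) : Prop :=
  (∀ s ∈ WS G {r} p, Sub r p (p^[i] y) s → s = y) ∧
    (∀ s ∈ WS G {r} p, Sub r p (p^[i] x) s → s = x)

/-- The main step: drop `y`. -/
theorem CB.main [Fintype V] [DecidableEq V] (C : CB G r dep p x y) (k : ℕ) (hk : k ≤ dep y)
    (hP : ∀ i, i < k → PP G r p x y i) (hne : p^[k] y ≠ p^[k] x) {s : V} (hs : s ∈ WS G {r} p)
    (hsy : s ≠ y) (hsk : Sub r p (p^[k] y) s) (A : Finset V)
    (hAe : A = insert r ((Wf G {r} p).erase y)) :
    ∀ a b c d, El G a b → El G c d → s(a, b) ≠ s(c, d) → Rz G A a b c d := by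
  have B := C.B
  have hxyd : dep x = dep y := C.H x y C.hxy
  have hxW : x ∈ WS G {r} p := ⟨y, C.hxy⟩
  have hyW : y ∈ WS G {r} p := ⟨x, BFS.nt_symm C.hxy⟩
  have hxyne : x ≠ y := C.hxy.1.ne
  have hA : ∀ s ∈ WS G {r} p, s ≠ y → s ∈ A := by
    intro s hs hsz
    rw [hAe]
    exact Finset.mem_insert_of_mem (Finset.mem_erase.mpr ⟨hsz, mem_Wf.mpr hs⟩)
  have hbr : ∀ a b, dep b = dep a + 1 → b ≠ r := by
    rintro a b h rfl
    rw [dep_r B] at h; omega
  have hkx := iter_sub B x k (by omega)
  have hky := iter_sub B y k hk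
  have hsx : s ≠ x := by
    rintro rfl
    exact hne (sub_unique B hsk hkx.1 (by omega))
  -- the key inequalities
  have star : ∀ i, i ≤ k → G.dist s (p^[k - i] y) < G.dist s (p^[k - i] x) := by
    intro i
    induction i with
    | zero =>
      intro _
      simp only [Nat.sub_zero]
      have h1 := sub_desc B hsk
      have h2 : ¬ Desc G dep (p^[k] x) s := fun h =>
        hne (sub_unique B hsk (desc_sub B C.H h) (by omega))
      have h3 := B.dep_lip s (p^[k] x)
      unfold Desc at h1 h2
      omega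
    | succ i ih =>
      intro hi
      have h1 := ih (by omega)
      have e : k - i = (k - (i + 1)) + 1 := by omega
      rw [e, Function.iterate_succ_apply', Function.iterate_succ_apply'] at h1
      generalize hj : k - (i + 1) = j at h1 ⊢
      have hjk : j < k := by omega
      obtain ⟨hy1, hx1⟩ := hP j hjk
      have g1 := iter_sub B y j (by omega)
      have g2 := iter_sub B x j (by omega)
      have hb := boundary B C.M (BFS.nt_symm C.hxy) hy1 hx1 g1.1 g2.1
      have huv : p^[j] y ≠ p^[j] x := by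
        intro h
        have := hy1 x hxW (by rw [h]; exact g2.1)
        exact hxyne this
      have hur : p^[j] y ≠ r := by
        intro h
        rw [h, dep_r B] at g1
        omega
      refine (climb B hb huv hur ?_ h1).1
      rintro (h | h)
      · exact hsy (hy1 s hs h)
      · exact hsx (hx1 s hs h)
  have star' : ∀ i, i ≤ k → G.dist s (p^[i] y) < G.dist s (p^[i] x) := by
    intro i hi
    have := star (k - i) (by omega)
    rwa [show k - (k - i) = i by omega] at this
  have hchain : ∀ b, b ≠ r → (¬ ∃ t ∈ WS G {r} p, t ≠ y ∧ Sub r p b t) →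
      ∃ i, i < k ∧ b = p^[i] y ∧ dep b + i = dep y := by
    intro b hb hno
    obtain ⟨t, ht, ht'⟩ := C.hgood b hb
    have hty : t = y := by
      by_contra h
      exact hno ⟨t, ht, h, ht'⟩
    subst hty
    have h1 := desc_le (sub_desc B ht')
    have g := iter_sub B t (dep t - dep b) (by omega)
    have hbe : b = p^[dep t - dep b] t := sub_unique B ht' g.1 (by omega)
    refine ⟨dep t - dep b, ?_, hbe, by omega⟩
    by_contra hcon
    push Not at hcon
    apply hno
    refine ⟨s, hs, hsy, ?_⟩
    have g2 := iter_sub B (p^[k] t) (dep t - dep b - k) (by omega)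
    rw [← Function.iterate_add_apply, show dep t - dep b - k + k = dep t - dep b by omega,
      ← hbe] at g2
    exact sub_trans g2.1 hsk
  have hvert : ∀ a b, G.Adj a b → dep b = dep a + 1 → p b = a := by
    intro a b hab hd
    by_contra hp
    have := C.H a b (nt_of hab (B.p_ne (by omega) hab.ne) hp)
    omega
  have hv : ∀ u v, u ≠ v → dep u = dep v → ∃ s ∈ (Wf G {r} p).erase y,
      (Desc G dep u s ∧ ¬ Desc G dep v s) ∨ (Desc G dep v s ∧ ¬ Desc G dep u s) := by
    intro u v huv hd
    have hur : u ≠ r := by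
      rintro rfl
      rw [dep_r B] at hd
      exact huv (eq_r B hd.symm).symm
    have hvr : v ≠ r := by
      rintro rfl
      rw [dep_r B] at hd
      exact huv (eq_r B hd)
    refine vstar B _ ?_ huv hd ?_
    · intro q q' hq hd hp
      exact absurd (hvert q q' hq hd) hp
    · obtain ⟨su, h1, h2⟩ := C.hgood u hur
      obtain ⟨sv, h3, h4⟩ := C.hgood v hvr
      by_cases h5 : su = y
      · by_cases h6 : sv = y
        · exfalso
          subst h5
          subst h6
          exact huv (sub_unique B h2 h4 hd)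
        · exact ⟨sv, Finset.mem_erase.mpr ⟨h6, mem_Wf.mpr h3⟩, Or.inr h4⟩
      · exact ⟨su, Finset.mem_erase.mpr ⟨h5, mem_Wf.mpr h1⟩, Or.inl h2⟩
  have hsub : ∀ s ∈ (Wf G {r} p).erase y, s ∈ A := by
    intro s hs
    rw [hAe]; exact Finset.mem_insert_of_mem hs
  apply resolve_all B A (by rw [hAe]; exact Finset.mem_insert_self _ _)
  · intro u v huv hd
    obtain ⟨s, hs, h⟩ := hv u v huv hd
    refine ⟨s, hsub s hs, ?_⟩
    unfold Desc at h; omega
  · intro a b a' b' _ hd _ hd' hda hbb
    obtain ⟨s, hs, h⟩ := hv b b' hbb (by omega)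
    exact rz_vert B (hsub s hs) h hd hd' hda
  · intro a b v hab hd hdv
    by_cases hex : ∃ t ∈ WS G {r} p, t ≠ y ∧ Sub r p b t
    · obtain ⟨t, ht, hty, ht'⟩ := hex
      exact rz_desc B (hA t ht hty) (sub_desc B ht') hd hdv hdv
    · obtain ⟨i, hik, hbe, hbd⟩ := hchain b (hbr a b hd) hex
      have hae : a = p^[i + 1] y := by
        rw [Function.iterate_succ_apply', ← hbe]
        exact (hvert a b hab hd).symm
      have gx := iter_sub B x (i + 1) (by omega)
      by_cases hvx : v = p^[i + 1] x
      · refine ⟨s, hA s hs hsy, ?_⟩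
        have := star' (i + 1) (by omega)
        rw [← hae, ← hvx] at this
        omega
      · refine ⟨x, hA x hxW hxyne, ?_⟩
        have h1 : G.dist x b ≤ G.dist x y + G.dist y b := B.conn.dist_triangle
        have h3 : G.dist x y = 1 := dist_eq_one_iff_adj.mpr C.hxy.1
        have h4 : Desc G dep b y := by
          rw [hbe]
          exact sub_desc B (iter_sub B y i (by omega)).1
        have h5 : ¬ Desc G dep v x := fun h => hvx
          (sub_unique B (desc_sub B C.H h) gx.1 (by omega))
        have h6 := B.dep_lip x v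
        unfold Desc at h4 h5
        omega
  · intro a b c d hab hd hcd hdcd hdca
    by_cases hex : ∃ t ∈ WS G {r} p, t ≠ y ∧ Sub r p b t
    · obtain ⟨t, ht, hty, ht'⟩ := hex
      exact rz_desc B (hA t ht hty) (sub_desc B ht') hd hdca (by omega)
    · have key : ∀ t, t = c ∨ t = d → t ≠ y → Rz G A a b c d := by
        intro t htcd hty
        have htW : t ∈ WS G {r} p := by
          rcases htcd with rfl | rfl
          · exact ⟨d, hcd⟩
          · exact ⟨c, BFS.nt_symm hcd⟩
        have hta : t ≠ a := by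
          have := C.L t htW b (hbr a b hd)
          rw [hvert a b hab hd] at this
          exact this.symm
        have htb : t ≠ b := by
          rintro rfl
          rcases htcd with rfl | rfl <;> omega
        refine ⟨t, hA t htW hty, ?_⟩
        have e1 := dist_pos B hta
        have e2 := dist_pos B htb
        have h0 : G.dist t t = 0 := dist_self
        rcases htcd with rfl | rfl <;> omega
      by_cases hcy : c = y
      · exact key d (Or.inr rfl) (fun h => hcd.1.ne (hcy.trans h.symm))
      · exact key c (Or.inl rfl) hcy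
  · intro a a' b hab hab' hd hd' hne
    exact absurd ((hvert a b hab hd).symm.trans (hvert a' b hab' hd')) hne
  · intro a b v hab hd _
    refine rz_horiz B hA ?_ hab hd
    intro c hc hdc
    have : c = x := C.M _ _ _ (BFS.nt_symm hc) (BFS.nt_symm C.hxy)
    subst this
    exact ⟨s, hA s hs hsy, by simpa using star' 0 (Nat.zero_le _)⟩
  · intro a b c d hab hcd _ _ _ hne
    exact rz_nt B hA (Or.inl C.M) hab hcd hne

theorem CB.resolve [Fintype V] [DecidableEq V] (C : CB G r dep p x y) :
    ∃ z ∈ WS G {r} p, ∀ A : Finset V, A = insert r ((Wf G {r} p).erase z) →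
      ∀ a b c d, El G a b → El G c d → s(a, b) ≠ s(c, d) → Rz G A a b c d := by
  classical
  have B := C.B
  have hxyd : dep x = dep y := C.H x y C.hxy
  have hxW : x ∈ WS G {r} p := ⟨y, C.hxy⟩
  have hyW : y ∈ WS G {r} p := ⟨x, BFS.nt_symm C.hxy⟩
  have hxyne : x ≠ y := C.hxy.1.ne
  have hroot : ¬ PP G r p x y (dep y) := by
    rintro ⟨h, -⟩
    obtain ⟨s, hs, -, hsy, -⟩ := C.hW x
    have g := iter_sub B y (dep y) le_rfl
    have hr : p^[dep y] y = r := eq_r B (by omega)
    rw [hr] at h
    exact hsy (h s hs (sub_root B _ s rfl))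
  have hex : ∃ i, ¬ PP G r p x y i := ⟨_, hroot⟩
  obtain ⟨k, hk, hkmin⟩ : ∃ k, ¬ PP G r p x y k ∧ ∀ i, i < k → PP G r p x y i :=
    ⟨Nat.find hex, Nat.find_spec hex, fun i hi => by
      have := Nat.find_min hex hi
      exact not_not.mp this⟩
  have hkd : k ≤ dep y := by
    by_contra h
    exact hroot (hkmin _ (by omega))
  have hk0 : k ≠ 0 := by
    rintro rfl
    apply hk
    exact ⟨fun s _ h => leaf_sub (C.L y hyW) h, fun s _ h => leaf_sub (C.L x hxW) h⟩
  obtain ⟨j, rfl⟩ := Nat.exists_eq_succ_of_ne_zero hk0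
  have hne : p^[j.succ] y ≠ p^[j.succ] x := by
    intro h
    obtain ⟨hy1, hx1⟩ := hkmin j (Nat.lt_succ_self j)
    have g1 := iter_sub B y j (by omega)
    have g2 := iter_sub B x j (by omega)
    have hb := boundary B C.M (BFS.nt_symm C.hxy) hy1 hx1 g1.1 g2.1
    have hur : p^[j] y ≠ r := by
      intro h
      rw [h, dep_r B] at g1
      omega
    rw [Function.iterate_succ_apply', Function.iterate_succ_apply'] at h
    obtain ⟨z, hz, hzx, hzy, hzw⟩ := C.hW (p (p^[j] y))
    refine cut C.h2 hb h (padj B hur).ne (z := z) ?_ hzw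
    rintro (h | h)
    · exact hzy (hy1 z hz h)
    · exact hzx (hx1 z hz h)
  unfold PP at hk
  rw [not_and_or] at hk
  push Not at hk
  rcases hk with ⟨s, hs, h1, h2⟩ | ⟨s, hs, h1, h2⟩
  · exact ⟨y, hyW, fun A hA => C.main _ hkd hkmin hne hs h2 h1 A hA⟩
  · exact ⟨x, hxW, fun A hA => C.symm.main _ (by omega)
      (fun i hi => ⟨(hkmin i hi).2, (hkmin i hi).1⟩) hne.symm hs h2 h1 A hA⟩

end Pool.Agent.U435.MMD
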