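import Pool.Agent.U435.MMD.Tree

/-!
# Climbing up two chains
-/

set_option autoImplicit false

namespace Pool.Agent.U435.MMD

open SimpleGraph Pool.Agent.Helper431

variable {V : Type*} {G : SimpleGraph V} {r : V} {dep : V → ℕ} {p : V → V}

/-- The non-tree edges form a matching. -/
def Mt (G : SimpleGraph V) (r : V) (p : V → V) : Prop :=
  ∀ a b c, NT G {r} p a b → NT G {r} p a c → b = c

theorem nt_of {u v : V} (h : G.Adj u v) (h1 : p u ≠ v) (h2 : p v ≠ u) : NT G {r} p u v := by
  refine ⟨h, ?_, h1, h2⟩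
  rintro ⟨hu, hv⟩
  rw [Set.mem_singleton_iff] at hu hv
  exact h.ne (hu.trans hv.symm)

/-- The subtrees below `u` and `v` are only left by the tree edges above `u` and `v`. -/
def Bd (G : SimpleGraph V) (r : V) (p : V → V) (u v : V) : Prop :=
  ∀ a b, G.Adj a b → ¬ (Sub r p u a ∨ Sub r p v a) → (Sub r p u b ∨ Sub r p v b) →
    (a = p u ∧ b = u) ∨ (a = p v ∧ b = v)

theorem Bd.symm {u v : V} (h : Bd G r p u v) : Bd G r p v u := by
  intro a b hab ha hb
  rcases h a b hab (fun h' => ha h'.symm) hb.symm with h1 | h1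
  · exact Or.inr h1
  · exact Or.inl h1

theorem boundary (B : BFS G {r} dep p) (M : Mt G r p) {x y u v : V} (hxy : NT G {r} p x y)
    (hu : ∀ s ∈ WS G {r} p, Sub r p u s → s = x) (hv : ∀ s ∈ WS G {r} p, Sub r p v s → s = y)
    (hux : Sub r p u x) (hvy : Sub r p v y) : Bd G r p u v := by
  have key : ∀ {x y u v : V}, NT G {r} p x y → (∀ s ∈ WS G {r} p, Sub r p u s → s = x) →
      Sub r p v y → ∀ a b, G.Adj a b → ¬ (Sub r p u a ∨ Sub r p v a) → Sub r p u b →
      (a = p u ∧ b = u) := by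
    intro x y u v hxy hu hvy a b hab ha hb
    by_cases h1 : p b = a
    · rcases sub_cases hb with h2 | ⟨h2, h3⟩
      · subst h2; exact ⟨h1.symm, rfl⟩
      · rw [h1] at h3
        exact absurd (Or.inl h3) ha
    · by_cases h2 : p a = b
      · have har : a ≠ r := by
          rintro rfl
          rw [B.p_root a rfl] at h2
          exact hab.ne h2
        exact absurd (Or.inl (sub_step har (by rw [h2]; exact hb))) ha
      · have hnt : NT G {r} p b a := nt_of hab.symm h1 h2
        have hbx : b = x := hu b ⟨a, hnt⟩ hb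
        subst hbx
        have : a = y := M _ _ _ hnt hxy
        subst this
        exact absurd (Or.inr hvy) ha
  intro a b hab ha hb
  rcases hb with hb | hb
  · left; exact key hxy hu hvy a b hab ha hb
  · right; exact key (BFS.nt_symm hxy) hv hux a b hab (fun h => ha h.symm) hb

/-- A shortest path into a set enters it. -/
theorem entry (hc : G.Connected) (Q : V → Prop) : ∀ (n : ℕ) (s q : V), G.dist s q = n → ¬ Q s →
    Q q → ∃ a b, ¬ Q a ∧ Q b ∧ G.Adj a b ∧ G.dist s q = G.dist s a + 1 + G.dist b q := by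
  intro n
  induction n with
  | zero =>
    intro s q h hs hq
    rw [hc.dist_eq_zero_iff.mp h] at hs
    exact absurd hq hs
  | succ n ih =>
    intro s q h hs hq
    have hne : s ≠ q := by
      rintro rfl
      exact hs hq
    obtain ⟨z, hz, hz'⟩ := exists_next hc hne
    by_cases hQ : Q z
    · exact ⟨s, z, hs, hQ, hz, by rw [dist_self]; omega⟩
    · obtain ⟨a, b, ha, hb, hab, he⟩ := ih z q (by omega) hQ hq
      refine ⟨a, b, ha, hb, hab, ?_⟩
      have h1 : G.dist s a ≤ G.dist s z + G.dist z a := hc.dist_triangle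
      have h2 : G.dist s z = 1 := dist_eq_one_iff_adj.mpr hz
      have h3 : G.dist s q ≤ G.dist s a + G.dist a q := hc.dist_triangle
      have h4 : G.dist a q ≤ G.dist a b + G.dist b q := hc.dist_triangle
      have h5 : G.dist a b = 1 := dist_eq_one_iff_adj.mpr hab
      omega

theorem climb (B : BFS G {r} dep p) {u v : V} (hb : Bd G r p u v) (huv : u ≠ v) (hur : u ≠ r)
    {s : V} (hs : ¬ (Sub r p u s ∨ Sub r p v s)) (h : G.dist s (p u) < G.dist s (p v)) :
    G.dist s u < G.dist s v ∧ G.dist s (p u) < G.dist s v := by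
  obtain ⟨a, b, ha, hb', hab, he⟩ := entry B.conn (fun t => Sub r p u t ∨ Sub r p v t) _ s v rfl hs
    (Or.inr (sub_refl v))
  have h1 : G.dist s u ≤ G.dist s (p u) + G.dist (p u) u := B.conn.dist_triangle
  have h2 : G.dist (p u) u = 1 := dist_eq_one_iff_adj.mpr (padj B hur).symm
  rcases hb a b hab ha hb' with ⟨rfl, rfl⟩ | ⟨rfl, rfl⟩
  · have h3 := dist_pos B huv
    omega
  · rw [dist_self] at he
    omega

theorem cut (h2 : ∀ w : V, (G.induce ({w}ᶜ : Set V)).Preconnected) {u v : V} (hb : Bd G r p u v)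
    (hpu : p u = p v) (hu : u ≠ p u) {z : V} (hz : ¬ (Sub r p u z ∨ Sub r p v z))
    (hzw : z ≠ p u) : False := by
  obtain ⟨w⟩ := h2 (p u) ⟨z, hzw⟩ ⟨u, hu⟩
  obtain ⟨d, -, hd1, hd2⟩ := w.exists_boundary_dart
    {t | ¬ (Sub r p u t.1 ∨ Sub r p v t.1)} hz (fun hcon => hcon (Or.inl (sub_refl u)))
  have hadj : G.Adj d.fst.1 d.snd.1 := d.adj
  have h1 : ¬ (Sub r p u d.fst.1 ∨ Sub r p v d.fst.1) := hd1
  have h3 : (Sub r p u d.snd.1 ∨ Sub r p v d.snd.1) := by
    by_contra h; exact hd2 h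
  have h4 : d.fst.1 ≠ p u := d.fst.2
  rcases hb _ _ hadj h1 h3 with h | h
  · exact h4 h.1
  · exact h4 (h.1.trans hpu.symm)

end Pool.Agent.U435.MMD
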