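import Pool.Agent.U435.MMD.CaseB

/-!
# The bound `mdim G ≤ 2 c(G)` for two-connected graphs
-/

set_option autoImplicit false

namespace Pool.Agent.U435.MMD

open SimpleGraph Pool.Agent.Helper431

variable {V : Type*} {G : SimpleGraph V} {r : V} {dep : V → ℕ} {p : V → V}

theorem card_NE [Fintype V] [DecidableEq V] [DecidableRel G.Adj] (B : BFS G {r} dep p) :
    (NE G {r} p).card + Fintype.card V = G.edgeFinset.card + 1 := by
  classical
  let T : Finset (Sym2 V) := (Finset.univ.erase r).image (fun v => s(v, p v))
  have hT : T.card = Fintype.card V - 1 := by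
    rw [Finset.card_image_of_injOn, Finset.card_erase_of_mem (Finset.mem_univ r),
      Finset.card_univ]
    intro v hv w hw h
    have hv' : v ≠ r := by simpa using hv
    have hw' : w ≠ r := by simpa using hw
    have e1 := pdep B hv'
    have e2 := pdep B hw'
    simp only [Sym2.eq_iff] at h
    rcases h with h | ⟨h1, h2⟩
    · exact h.1
    · rw [← h1] at e2
      rw [h2] at e1
      omega
  have hE : G.edgeFinset = NE G {r} p ∪ T := by
    ext e
    induction e with
    | _ a b =>
      rw [mem_edgeFinset, Finset.mem_union, mem_NE, mem_edgeSet]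
      constructor
      · intro hab
        by_cases h1 : p a = b
        · right
          have har : a ≠ r := by
            rintro rfl
            rw [B.p_root a rfl] at h1
            exact hab.ne h1
          exact Finset.mem_image.mpr ⟨a, by simpa using har, by rw [h1]⟩
        · by_cases h2 : p b = a
          · right
            have hbr : b ≠ r := by
              rintro rfl
              rw [B.p_root b rfl] at h2
              exact hab.ne h2.symm
            exact Finset.mem_image.mpr ⟨b, by simpa using hbr, by rw [h2, Sym2.eq_swap]⟩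
          · left
            exact ⟨a, b, rfl, nt_of hab h1 h2⟩
      · rintro (⟨u, v, h, hnt⟩ | h)
        · rcases Sym2.eq_iff.mp h with ⟨rfl, rfl⟩ | ⟨rfl, rfl⟩
          · exact hnt.1
          · exact hnt.1.symm
        · obtain ⟨v, hv, h⟩ := Finset.mem_image.mp h
          have hvr : v ≠ r := by simpa using hv
          rcases Sym2.eq_iff.mp h with ⟨rfl, h'⟩ | ⟨rfl, h'⟩
          · rw [← h']; exact padj B hvr
          · rw [← h']; exact (padj B hvr).symm
  have hdis : Disjoint (NE G {r} p) T := by
    rw [Finset.disjoint_left]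
    intro e he he'
    rw [mem_NE] at he
    obtain ⟨u, v, rfl, hnt⟩ := he
    obtain ⟨w, -, h⟩ := Finset.mem_image.mp he'
    rcases Sym2.eq_iff.mp h with ⟨rfl, h'⟩ | ⟨rfl, h'⟩
    · exact hnt.2.2.1 h'
    · exact hnt.2.2.2 h'
  have hV : 0 < Fintype.card V := Fintype.card_pos_iff.mpr ⟨r⟩
  rw [hE, Finset.card_union_of_disjoint hdis, hT]
  omega

/-- The main theorem: a connected graph without cut vertices, with minimum degree at least two and
a vertex of degree at least three has a mixed resolving set of size at most `2 c(G)`. -/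
theorem main [Fintype V] [DecidableEq V] [DecidableRel G.Adj] (hc : G.Connected)
    (h2 : ∀ w : V, (G.induce ({w}ᶜ : Set V)).Preconnected) (hdeg : ∀ v, 2 ≤ G.degree v)
    (h3 : ∃ v, 3 ≤ G.degree v) :
    ∃ A : Finset V, A.card + 2 * Fintype.card V ≤ 2 * (G.edgeFinset.card + 1) ∧
      ∀ a b c d, El G a b → El G c d → s(a, b) ≠ s(c, d) → Rz G A a b c d := by
  classical
  obtain ⟨r, hr3⟩ := h3
  obtain ⟨dep, p, B⟩ := exists_BFS (G := G) (R := {r}) hc ⟨r, rfl⟩
  have hgood : ∀ v, v ≠ r → ∃ s ∈ WS G {r} p, Sub r p v s := fun v hv =>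
    B.exists_W_below hdeg v (ne_root.mpr hv)
  have hcard := card_NE B
  have hWf := card_Wf_le (G := G) (p := p) {r}
  have hrW : r ∉ WS G {r} p := r_not_ws B
  -- the number of edges
  have hm : Fintype.card V + 1 ≤ G.edgeFinset.card := by
    have h1 := G.sum_degrees_eq_twice_card_edges
    have h4 : ∑ w : V, 2 < ∑ w : V, G.degree w :=
      Finset.sum_lt_sum (fun w _ => hdeg w) ⟨r, Finset.mem_univ r, by omega⟩
    rw [Finset.sum_const, smul_eq_mul, Finset.card_univ] at h4
    omega
  have hN2 : 2 ≤ (NE G {r} p).card := by omega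
  by_cases hM : Mt G r p
  · have hW : ∀ x y, NT G {r} p x y → ∀ w, ∃ s ∈ WS G {r} p, s ≠ x ∧ s ≠ y ∧ s ≠ w := by
      intro x y hxy w
      obtain ⟨e, he, hne⟩ := Finset.exists_mem_ne (by omega : 1 < (NE G {r} p).card) s(x, y)
      obtain ⟨c, d, rfl, hcd⟩ := mem_NE.mp he
      have h1 : c ≠ x := by
        rintro rfl
        exact hne (by rw [hM _ _ _ hcd hxy])
      have h4 : c ≠ y := by
        rintro rfl
        exact hne (by rw [hM _ _ _ hcd (BFS.nt_symm hxy), Sym2.eq_swap])
      have h5 : d ≠ x := by
        rintro rfl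
        exact hne (by rw [hM _ _ _ (BFS.nt_symm hcd) hxy, Sym2.eq_swap])
      have h6 : d ≠ y := by
        rintro rfl
        exact hne (by rw [hM _ _ _ (BFS.nt_symm hcd) (BFS.nt_symm hxy)])
      by_cases h7 : c = w
      · exact ⟨d, ⟨c, BFS.nt_symm hcd⟩, h5, h6, fun h => hcd.1.ne (h7.trans h.symm)⟩
      · exact ⟨c, ⟨d, hcd⟩, h1, h4, h7⟩
    have hcardA : ∀ z ∈ WS G {r} p, (insert r ((Wf G {r} p).erase z)).card +
        2 * Fintype.card V ≤ 2 * (G.edgeFinset.card + 1) := by
      intro z hz
      have h1 := Finset.card_insert_le r ((Wf G {r} p).erase z)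
      have h4 := Finset.card_erase_add_one (mem_Wf.mpr hz)
      omega
    obtain ⟨e0, he0⟩ := Finset.card_pos.mp (by omega : 0 < (NE G {r} p).card)
    obtain ⟨x0, y0, -, hxy0⟩ := mem_NE.mp he0
    by_cases hv : ∃ x y, NT G {r} p x y ∧ dep y = dep x + 1
    · obtain ⟨x, y, hxy, hd⟩ := hv
      have hxW : x ∈ WS G {r} p := ⟨y, hxy⟩
      have hyW : y ∈ WS G {r} p := ⟨x, BFS.nt_symm hxy⟩
      by_cases hl : ∀ w, w ≠ r → p w ≠ y
      · -- the lower end is a leaf: drop the upper end
        have C : CA G r dep p x y := ⟨B, hM, h2, hgood, hxy, hd, hl, hW x y hxy⟩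
        exact ⟨_, hcardA x hxW, C.resolve _ rfl⟩
      · -- the lower end is an inner vertex: drop it
        push Not at hl
        obtain ⟨w, hwr, hw⟩ := hl
        refine ⟨_, hcardA y hyW, general_case B y _ rfl ?_ ?_ ?_ (Or.inl hM)⟩
        · intro b hb
          obtain ⟨s, hs, hs'⟩ := hgood b hb
          by_cases hsy : s = y
          · obtain ⟨t, ht, ht'⟩ := hgood w hwr
            have h4 : Sub r p s t := sub_trans (sub_step hwr (by rw [hw, hsy]; exact sub_refl _)) ht'
            refine ⟨t, ht, ?_, sub_trans hs' h4⟩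
            rintro rfl
            have e1 := desc_le (sub_desc B ht')
            have e2 := pdep B hwr
            rw [hw] at e2
            omega
          · exact ⟨s, hs, hsy, hs'⟩
        · intro q hq
          have : q = x := hM _ _ _ hq (BFS.nt_symm hxy)
          subst this
          omega
        · intro c hc' hdc
          have : c = x := hM _ _ _ (BFS.nt_symm hc') (BFS.nt_symm hxy)
          subst this
          omega
    · -- all non-tree edges are horizontal
      have H : ∀ a b, NT G {r} p a b → dep a = dep b := by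
        intro a b hab
        have e1 := B.dep_adj hab.1
        have e2 := B.dep_adj hab.1.symm
        have h1 : dep b ≠ dep a + 1 := fun h => hv ⟨a, b, hab, h⟩
        have h4 : dep a ≠ dep b + 1 := fun h => hv ⟨b, a, BFS.nt_symm hab, h⟩
        omega
      by_cases hL : ∀ s ∈ WS G {r} p, ∀ w, w ≠ r → p w ≠ s
      · have C : CB G r dep p x0 y0 := ⟨B, hM, h2, hgood, hxy0, H, hL, hW x0 y0 hxy0⟩
        obtain ⟨z, hz, h⟩ := C.resolve
        exact ⟨_, hcardA z hz, h _ rfl⟩
      · push Not at hL
        obtain ⟨z, hz, w, hwr, hw⟩ := hL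
        obtain ⟨t, ht, ht'⟩ := hgood w hwr
        have hzt : Sub r p z t := sub_trans (sub_step hwr (by rw [hw]; exact sub_refl _)) ht'
        have htz : t ≠ z := by
          rintro rfl
          have e1 := desc_le (sub_desc B ht')
          have e2 := pdep B hwr
          rw [hw] at e2
          omega
        refine ⟨_, hcardA z hz, general_case B z _ rfl ?_ ?_ ?_ (Or.inl hM)⟩
        · intro b hb
          obtain ⟨s, hs, hs'⟩ := hgood b hb
          by_cases hsz : s = z
          · subst hsz
            exact ⟨t, ht, htz, sub_trans hs' hzt⟩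
          · exact ⟨s, hs, hsz, hs'⟩
        · intro q hq
          have := H _ _ hq
          omega
        · intro c hc' hdc
          refine ⟨t, ht, htz, ?_⟩
          have h1 := sub_desc B hzt
          have h4 : ¬ Desc G dep c t := fun h =>
            hc'.1.ne (sub_unique B (desc_sub B H h) hzt hdc)
          have h5 := B.dep_lip t c
          unfold Desc at h1 h4
          omega
  · -- two non-tree edges share an end
    unfold Mt at hM
    push Not at hM
    obtain ⟨a, b, c, hab, hac, hbc⟩ := hM
    have hlt := card_Wf_lt (G := G) (p := p) {r} hbc hab hac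
    refine ⟨insert r ((Wf G {r} p).erase r), ?_, general_case B r _ rfl ?_ ?_ ?_ (Or.inr hrW)⟩
    · have h1 := Finset.card_insert_le r ((Wf G {r} p).erase r)
      have h4 := Finset.card_erase_le (s := Wf G {r} p) (a := r)
      omega
    · intro b hb
      obtain ⟨s, hs, hs'⟩ := hgood b hb
      exact ⟨s, hs, fun h => hrW (h ▸ hs), hs'⟩
    · intro q hq
      exact absurd ⟨q, hq⟩ hrW
    · intro q hq _
      exact absurd ⟨q, BFS.nt_symm hq⟩ hrW

end Pool.Agent.U435.MMD
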