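import Pool.Agent.U435.MMD.Climb

/-!
# Resolving all pairs: the general scheme
-/

set_option autoImplicit false

namespace Pool.Agent.U435.MMD

open SimpleGraph Pool.Agent.Helper431

variable {V : Type*} {G : SimpleGraph V} {r : V} {dep : V → ℕ} {p : V → V}

/-- `A` tells the elements `{a, b}` and `{c, d}` apart. -/
def Rz (G : SimpleGraph V) (A : Finset V) (a b c d : V) : Prop :=
  ∃ s ∈ A, min (G.dist s a) (G.dist s b) ≠ min (G.dist s c) (G.dist s d)

theorem Rz.swap {A : Finset V} {a b c d : V} (h : Rz G A a b c d) : Rz G A c d a b := by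
  obtain ⟨s, hs, h⟩ := h
  exact ⟨s, hs, h.symm⟩

theorem Rz.left {A : Finset V} {a b c d : V} (h : Rz G A a b c d) : Rz G A b a c d := by
  obtain ⟨s, hs, h⟩ := h
  exact ⟨s, hs, by rwa [min_comm (G.dist s b)]⟩

theorem Rz.right {A : Finset V} {a b c d : V} (h : Rz G A a b c d) : Rz G A a b d c := by
  obtain ⟨s, hs, h⟩ := h
  exact ⟨s, hs, by rwa [min_comm (G.dist s d)]⟩

/-- A vertex or an edge. -/
def El (G : SimpleGraph V) (a b : V) : Prop := a = b ∨ G.Adj a b

theorem El.symm {a b : V} (h : El G a b) : El G b a := by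
  rcases h with h | h
  · exact Or.inl h.symm
  · exact Or.inr h.symm

theorem resolve_all (B : BFS G {r} dep p) (A : Finset V) (hr : r ∈ A)
    (F2v : ∀ u v, u ≠ v → dep u = dep v → ∃ s ∈ A, G.dist s u ≠ G.dist s v)
    (F2e : ∀ a b a' b', G.Adj a b → dep b = dep a + 1 → G.Adj a' b' → dep b' = dep a' + 1 →
      dep a = dep a' → b ≠ b' → Rz G A a b a' b')
    (F1v : ∀ a b v, G.Adj a b → dep b = dep a + 1 → dep v = dep a → Rz G A a b v v)
    (F1h : ∀ a b c d, G.Adj a b → dep b = dep a + 1 → NT G {r} p c d → dep c = dep d →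
      dep c = dep a → Rz G A a b c d)
    (F3 : ∀ a a' b, G.Adj a b → G.Adj a' b → dep b = dep a + 1 → dep b = dep a' + 1 → a ≠ a' →
      Rz G A a b a' b)
    (F4 : ∀ a b v, NT G {r} p a b → dep a = dep b → dep v = dep a → Rz G A a b v v)
    (F5 : ∀ a b c d, NT G {r} p a b → NT G {r} p c d → dep a = dep b → dep c = dep d →
      dep a = dep c → s(a, b) ≠ s(c, d) → Rz G A a b c d) :
    ∀ a b c d, El G a b → El G c d → s(a, b) ≠ s(c, d) → Rz G A a b c d := by
  have main : ∀ a b c d, El G a b → El G c d → s(a, b) ≠ s(c, d) → dep a ≤ dep b →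
      dep c ≤ dep d → Rz G A a b c d := by
    intro a b c d hab hcd hne h1 h2
    by_cases hac : dep a = dep c
    · have nth : ∀ {x y : V}, G.Adj x y → dep x = dep y → NT G {r} p x y := by
        intro x y hxy hd
        exact nt_of hxy (B.p_ne hd.le hxy.ne) (B.p_ne hd.ge hxy.ne.symm)
      have tri : ∀ {x y : V}, El G x y → dep x ≤ dep y → x = y ∨
          (NT G {r} p x y ∧ dep x = dep y) ∨ (G.Adj x y ∧ dep y = dep x + 1) := by
        intro x y hxy hle
        rcases hxy with h | h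
        · exact Or.inl h
        · right
          have := B.dep_adj h.symm
          rcases Nat.lt_or_ge (dep x) (dep y) with h' | h'
          · right; exact ⟨h, by omega⟩
          · left; exact ⟨nth h (by omega), by omega⟩
      rcases tri hab h1 with h3 | ⟨h3, h4⟩ | ⟨h3, h4⟩ <;>
        rcases tri hcd h2 with h5 | ⟨h5, h6⟩ | ⟨h5, h6⟩
      · subst h3 h5
        have hne' : a ≠ c := fun h => hne (by rw [h])
        obtain ⟨s, hs, h⟩ := F2v a c hne' hac
        exact ⟨s, hs, by simpa using h⟩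
      · subst h3
        exact (F4 c d a h5 h6 hac).swap
      · subst h3
        exact (F1v c d a h5 h6 hac).swap
      · subst h5
        exact F4 a b c h3 h4 hac.symm
      · exact F5 a b c d h3 h5 h4 h6 hac hne
      · exact (F1h c d a b h5 h6 h3 h4 hac).swap
      · subst h5
        exact F1v a b c h3 h4 hac.symm
      · exact F1h a b c d h3 h4 h5 h6 hac.symm
      · by_cases hbd : b = d
        · subst hbd
          exact F3 a c b h3 h5 h4 h6 (fun h => hne (by rw [h]))
        · exact F2e a b c d h3 h4 h5 h6 hac hbd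
    · refine ⟨r, hr, ?_⟩
      have e1 := dep_eq B a
      have e2 := dep_eq B b
      have e3 := dep_eq B c
      have e4 := dep_eq B d
      omega
  intro a b c d hab hcd hne
  rcases Nat.le_total (dep a) (dep b) with h1 | h1 <;>
    rcases Nat.le_total (dep c) (dep d) with h2 | h2
  · exact main a b c d hab hcd hne h1 h2
  · exact (main a b d c hab hcd.symm (by rwa [Sym2.eq_swap (a := d)]) h1 h2).right
  · exact (main b a c d hab.symm hcd (by rwa [Sym2.eq_swap (a := b)]) h1 h2).left
  · exact (main b a d c hab.symm hcd.symm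
      (by rwa [Sym2.eq_swap (a := b), Sym2.eq_swap (a := d)]) h1 h2).left.right

/-- A vertical edge is told apart from everything else in its layer by a descendant of its lower
end. -/
theorem rz_desc (B : BFS G {r} dep p) {A : Finset V} {a b c d s : V} (hs : s ∈ A)
    (hD : Desc G dep b s) (hab : dep b = dep a + 1) (hc : dep c = dep a) (hd : dep d = dep a) :
    Rz G A a b c d := by
  refine ⟨s, hs, ?_⟩
  have e1 := B.dep_lip s a
  have e2 := B.dep_lip s c
  have e3 := B.dep_lip s d
  unfold Desc at hD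
  omega

theorem rz_vert (B : BFS G {r} dep p) {A : Finset V} {a b c d s : V} (hs : s ∈ A)
    (hD : (Desc G dep b s ∧ ¬ Desc G dep d s) ∨ (Desc G dep d s ∧ ¬ Desc G dep b s))
    (hab : dep b = dep a + 1) (hcd : dep d = dep c + 1) (hac : dep a = dep c) :
    Rz G A a b c d := by
  refine ⟨s, hs, ?_⟩
  have e1 := B.dep_lip s a
  have e2 := B.dep_lip s c
  have e3 := B.dep_lip s b
  have e4 := B.dep_lip s d
  unfold Desc at hD
  omega

/-- Horizontal edges against vertices. -/
theorem rz_horiz (B : BFS G {r} dep p) {A : Finset V} {z : V}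
    (hz : ∀ s ∈ WS G {r} p, s ≠ z → s ∈ A)
    (hz' : ∀ c, NT G {r} p c z → dep c = dep z → ∃ s ∈ A, G.dist s z < G.dist s c)
    {a b v : V} (hab : NT G {r} p a b) (hd : dep a = dep b) : Rz G A a b v v := by
  have ha : a ∈ WS G {r} p := ⟨b, hab⟩
  have hb : b ∈ WS G {r} p := ⟨a, BFS.nt_symm hab⟩
  have key : ∀ {x y : V}, NT G {r} p x y → dep x = dep y → v = x → Rz G A x y v v := by
    intro x y hxy hdxy hv
    subst hv
    by_cases hyz : y = z
    · subst hyz
      obtain ⟨s, hs, h⟩ := hz' v hxy hdxy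
      exact ⟨s, hs, by omega⟩
    · refine ⟨y, hz y ⟨v, BFS.nt_symm hxy⟩ hyz, ?_⟩
      have := dist_pos B hxy.1.ne.symm
      have h0 : G.dist y y = 0 := dist_self
      omega
  by_cases h1 : v = a
  · exact key hab hd h1
  by_cases h2 : v = b
  · exact (key (BFS.nt_symm hab) hd.symm h2).left
  by_cases h3 : a = z
  · have hbz : b ≠ z := fun h => hab.1.ne (h3.trans h.symm)
    refine ⟨b, hz b hb hbz, ?_⟩
    have := dist_pos B (Ne.symm h2)
    have h0 : G.dist b b = 0 := dist_self
    omega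
  · refine ⟨a, hz a ha h3, ?_⟩
    have := dist_pos B (Ne.symm h1)
    have h0 : G.dist a a = 0 := dist_self
    omega

/-- Two different non-tree edges. -/
theorem rz_nt (B : BFS G {r} dep p) {A : Finset V} {z : V}
    (hz : ∀ s ∈ WS G {r} p, s ≠ z → s ∈ A) (hM : Mt G r p ∨ z ∉ WS G {r} p)
    {a b c d : V} (hab : NT G {r} p a b) (hcd : NT G {r} p c d) (hne : s(a, b) ≠ s(c, d)) :
    Rz G A a b c d := by
  have ha : a ∈ WS G {r} p := ⟨b, hab⟩
  have hb : b ∈ WS G {r} p := ⟨a, BFS.nt_symm hab⟩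
  have use : ∀ x, x ∈ A → (x = a ∨ x = b) → x ≠ c → x ≠ d → Rz G A a b c d := by
    intro x hx hx' hxc hxd
    refine ⟨x, hx, ?_⟩
    have e1 := dist_pos B hxc
    have e2 := dist_pos B hxd
    have h0 : G.dist x x = 0 := dist_self
    rcases hx' with rfl | rfl <;> omega
  have hn1 : ¬ (a = c ∧ b = d) := fun h => hne (by rw [h.1, h.2])
  have hn2 : ¬ (a = d ∧ b = c) := fun h => hne (by
    rw [h.1, h.2]; exact Sym2.eq_iff.mpr (Or.inr ⟨rfl, rfl⟩))
  rcases hM with hM | hM
  · have hac : a ≠ c := by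
      rintro rfl
      exact hn1 ⟨rfl, hM _ _ _ hab hcd⟩
    have had : a ≠ d := by
      rintro rfl
      exact hn2 ⟨rfl, hM _ _ _ hab (BFS.nt_symm hcd)⟩
    have hbc : b ≠ c := by
      rintro rfl
      exact hn2 ⟨hM _ _ _ (BFS.nt_symm hab) hcd, rfl⟩
    have hbd : b ≠ d := by
      rintro rfl
      exact hn1 ⟨hM _ _ _ (BFS.nt_symm hab) (BFS.nt_symm hcd), rfl⟩
    by_cases haz : a = z
    · exact use b (hz b hb (fun h => hab.1.ne (haz.trans h.symm))) (Or.inr rfl) hbc hbd
    · exact use a (hz a ha haz) (Or.inl rfl) hac had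
  · have ha' : a ∈ A := hz a ha (fun h => hM (h ▸ ha))
    have hb' : b ∈ A := hz b hb (fun h => hM (h ▸ hb))
    by_cases h1 : a = c
    · subst h1
      exact use b hb' (Or.inr rfl) hab.1.ne.symm (fun h => hn1 ⟨rfl, h⟩)
    · by_cases h2 : a = d
      · subst h2
        exact use b hb' (Or.inr rfl) (fun h => hn2 ⟨rfl, h⟩) hab.1.ne.symm
      · exact use a ha' (Or.inl rfl) h1 h2

theorem r_not_ws (B : BFS G {r} dep p) : r ∉ WS G {r} p := by
  rintro ⟨v, hv⟩
  have h1 := B.dep_adj hv.1.symm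
  have h2 := dep_r B
  have h3 : v ≠ r := hv.1.ne.symm
  have h4 := pdep B h3
  exact hv.2.2.2 (eq_r B (by omega))

/-- The general scheme covering: no vertex dropped; an inner lower end of a vertical edge
dropped; an inner vertex dropped if all non-tree edges are horizontal. -/
theorem general_case [Fintype V] [DecidableEq V] (B : BFS G {r} dep p) (z : V) (A : Finset V)
    (hA : A = insert r ((Wf G {r} p).erase z))
    (h1 : ∀ b, b ≠ r → ∃ s ∈ WS G {r} p, s ≠ z ∧ Sub r p b s)
    (hz : ∀ q, NT G {r} p z q → dep q ≠ dep z + 1)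
    (hz' : ∀ c, NT G {r} p c z → dep c = dep z → ∃ s ∈ WS G {r} p, s ≠ z ∧
      G.dist s z < G.dist s c)
    (hM : Mt G r p ∨ z ∉ WS G {r} p) :
    ∀ a b c d, El G a b → El G c d → s(a, b) ≠ s(c, d) → Rz G A a b c d := by
  have hmem : ∀ s ∈ WS G {r} p, s ≠ z → s ∈ A := by
    intro s hs hsz
    rw [hA]
    exact Finset.mem_insert_of_mem (Finset.mem_erase.mpr ⟨hsz, mem_Wf.mpr hs⟩)
  have hup : ∀ q q', G.Adj q q' → dep q' = dep q + 1 → p q' ≠ q →
      q ∈ WS G {r} p ∧ q ≠ z ∧ NT G {r} p q q' := by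
    intro q q' hq hd hp
    have hnt : NT G {r} p q q' := nt_of hq (B.p_ne (by omega) hq.ne) hp
    refine ⟨⟨q', hnt⟩, ?_, hnt⟩
    rintro rfl
    exact hz q' hnt hd
  have hv : ∀ u v, u ≠ v → dep u = dep v → ∃ s ∈ (Wf G {r} p).erase z,
      (Desc G dep u s ∧ ¬ Desc G dep v s) ∨ (Desc G dep v s ∧ ¬ Desc G dep u s) := by
    intro u v huv hd
    have hur : u ≠ r := by
      rintro rfl
      rw [dep_r B] at hd
      exact huv (eq_r B hd.symm).symm
    obtain ⟨s, hs, hsz, hs'⟩ := h1 u hur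
    refine vstar B _ ?_ huv hd ⟨s, Finset.mem_erase.mpr ⟨hsz, mem_Wf.mpr hs⟩, Or.inl hs'⟩
    intro q q' hq hd hp
    left
    have := hup q q' hq hd hp
    exact Finset.mem_erase.mpr ⟨this.2.1, mem_Wf.mpr this.1⟩
  have hsub : ∀ s ∈ (Wf G {r} p).erase z, s ∈ A := by
    intro s hs
    rw [hA]; exact Finset.mem_insert_of_mem hs
  have hbr : ∀ a b, dep b = dep a + 1 → b ≠ r := by
    rintro a b h rfl
    rw [dep_r B] at h; omega
  apply resolve_all B A (by rw [hA]; exact Finset.mem_insert_self _ _)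
  · intro u v huv hd
    obtain ⟨s, hs, h⟩ := hv u v huv hd
    refine ⟨s, hsub s hs, ?_⟩
    unfold Desc at h; omega
  · intro a b a' b' _ hd _ hd' hda hbb
    obtain ⟨s, hs, h⟩ := hv b b' hbb (by omega)
    exact rz_vert B (hsub s hs) h hd hd' hda
  · intro a b v _ hd hv'
    obtain ⟨s, hs, hsz, hs'⟩ := h1 b (hbr a b hd)
    exact rz_desc B (hmem s hs hsz) (sub_desc B hs') hd hv' hv'
  · intro a b c d _ hd _ hcd hca
    obtain ⟨s, hs, hsz, hs'⟩ := h1 b (hbr a b hd)
    exact rz_desc B (hmem s hs hsz) (sub_desc B hs') hd hca (by omega)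
  · intro a a' b hab hab' hd hd' hne
    have key : ∀ {x y : V}, G.Adj x b → G.Adj y b → dep b = dep x + 1 → x ≠ y → p b ≠ x →
        Rz G A x b y b := by
      intro x y hx hy hdx hxy hp
      have := hup x b hx hdx hp
      refine ⟨x, hmem x this.1 this.2.1, ?_⟩
      have e1 := dist_pos B hxy
      have e2 := dist_pos B hx.ne
      have h0 : G.dist x x = 0 := dist_self
      omega
    by_cases hp : p b = a
    · exact (key hab' hab hd' hne.symm (fun h => hne (hp.symm.trans h))).swap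
    · exact key hab hab' hd hne hp
  · intro a b v hab hd _
    refine rz_horiz B hmem ?_ hab hd
    intro c hc hd
    obtain ⟨s, hs, hsz, h⟩ := hz' c hc hd
    exact ⟨s, hmem s hs hsz, h⟩
  · intro a b c d hab hcd _ _ _ hne
    exact rz_nt B hmem hM hab hcd hne

end Pool.Agent.U435.MMD
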