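import Pool.Agent.Helper431.CycleIso

/-!
# Breadth-first trees: subtrees and descendants

We use the breadth-first forests of `Pool.Agent.Helper431` with a single root `r`.
-/

set_option autoImplicit false

namespace Pool.Agent.U435.MMD

open SimpleGraph Pool.Agent.Helper431

variable {V : Type*} {G : SimpleGraph V} {r : V} {dep : V → ℕ} {p : V → V}

/-- `s` lies in the subtree below `v`. -/
abbrev Sub (r : V) (p : V → V) (v s : V) : Prop := InT {r} p {v} s

/-- `v` lies on a shortest path from the root to `s`. -/
def Desc (G : SimpleGraph V) (dep : V → ℕ) (v s : V) : Prop := G.dist s v + dep v = dep s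

theorem ne_root {v : V} : v ∉ ({r} : Set V) ↔ v ≠ r := by simp

theorem dep_r (B : BFS G {r} dep p) : dep r = 0 := B.dep_root rfl

theorem dep_eq (B : BFS G {r} dep p) (v : V) : dep v = G.dist r v := by
  obtain ⟨x, hx, h⟩ := B.dep_att v
  rw [Set.mem_singleton_iff] at hx
  subst hx
  rw [← h, dist_comm]

theorem eq_r (B : BFS G {r} dep p) {v : V} (h : dep v = 0) : v = r := B.root_of_dep h

theorem padj (B : BFS G {r} dep p) {v : V} (h : v ≠ r) : G.Adj v (p v) :=
  (B.p_adj v (ne_root.mpr h)).1

theorem pdep (B : BFS G {r} dep p) {v : V} (h : v ≠ r) : dep (p v) + 1 = dep v :=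
  (B.p_adj v (ne_root.mpr h)).2

theorem sub_refl (v : V) : Sub r p v v := InT.base v rfl

theorem sub_step {v s : V} (hs : s ≠ r) (h : Sub r p v (p s)) : Sub r p v s :=
  InT.step s (ne_root.mpr hs) h

theorem sub_cases {v s : V} (h : Sub r p v s) : s = v ∨ (s ≠ r ∧ Sub r p v (p s)) := by
  cases h with
  | base x hx => left; exact hx
  | step s hs h => right; exact ⟨ne_root.mp hs, h⟩

theorem sub_trans {u v s : V} (h : Sub r p u v) (h' : Sub r p v s) : Sub r p u s := by
  induction h' with
  | base x hx =>
    rw [Set.mem_singleton_iff] at hx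
    rw [hx]; exact h
  | step s hs _ ih => exact InT.step s hs ih

theorem sub_up {u s : V} (hu : u ≠ r) (h : Sub r p u s) : Sub r p (p u) s :=
  sub_trans (sub_step hu (sub_refl _)) h

theorem sub_desc (B : BFS G {r} dep p) {v s : V} (h : Sub r p v s) : Desc G dep v s :=
  BFS.J_single.mp (B.InT_J h)

theorem desc_le {v s : V} (h : Desc G dep v s) : dep v ≤ dep s := by
  unfold Desc at h; omega

theorem sub_unique (B : BFS G {r} dep p) {u v s : V} (h : Sub r p u s) (h' : Sub r p v s)
    (hd : dep u = dep v) : u = v := by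
  induction h with
  | base x hx =>
    rw [Set.mem_singleton_iff] at hx
    subst hx
    rcases sub_cases h' with h1 | ⟨h1, h2⟩
    · exact h1
    · have e1 := desc_le (sub_desc B h2)
      have e2 := pdep B h1
      omega
  | step s hs h ih =>
    have hs' := ne_root.mp hs
    rcases sub_cases h' with h1 | ⟨h1, h2⟩
    · subst h1
      have e1 := desc_le (sub_desc B h)
      have e2 := pdep B hs'
      omega
    · exact ih h2

theorem dist_pos (B : BFS G {r} dep p) {u v : V} (h : u ≠ v) : 0 < G.dist u v :=
  B.conn.pos_dist_of_ne h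

theorem desc_refl (v : V) : Desc G dep v v := by simp [Desc]

theorem desc_eq (B : BFS G {r} dep p) {v s : V} (h : Desc G dep v s) (hd : dep v = dep s) :
    s = v := by
  unfold Desc at h
  exact B.conn.dist_eq_zero_iff.mp (by omega)

theorem desc_trans (B : BFS G {r} dep p) {u v s : V} (h : Desc G dep u v) (h' : Desc G dep v s) :
    Desc G dep u s := by
  unfold Desc at *
  have h1 : G.dist s u ≤ G.dist s v + G.dist v u := B.conn.dist_triangle
  have h2 := B.dep_lip s u
  omega

/-- Either the descendant is in the subtree, or a shortest path leaves the subtree through a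
vertical edge which is not in the tree. -/
theorem desc_cases (B : BFS G {r} dep p) : ∀ (n : ℕ) (v s : V), G.dist s v = n → Desc G dep v s →
    Sub r p v s ∨ ∃ q q', Sub r p v q ∧ G.Adj q q' ∧ dep q' = dep q + 1 ∧ p q' ≠ q ∧
      Desc G dep q' s := by
  intro n
  induction n with
  | zero =>
    intro v s hn _
    left
    have : s = v := B.conn.dist_eq_zero_iff.mp hn
    rw [this]; exact sub_refl _
  | succ n ih =>
    intro v s hn hD
    have hne : v ≠ s := by
      rintro rfl
      rw [dist_self] at hn; omega
    obtain ⟨w, hw1, hw2⟩ := exists_next B.conn hne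
    have e1 := B.dep_lip s w
    have e2 := B.dep_adj hw1.symm
    have e3 : G.dist s w = G.dist w s := dist_comm
    have e4 : G.dist s v = G.dist v s := dist_comm
    have hDw : Desc G dep w s := by unfold Desc at *; omega
    have hdw : dep w = dep v + 1 := by unfold Desc at *; omega
    by_cases hp : p w = v
    · have hwr : w ≠ r := by
        rintro rfl
        have := dep_r B
        omega
      have hvw : Sub r p v w := sub_step hwr (by rw [hp]; exact sub_refl _)
      rcases ih w s (by omega) hDw with h | ⟨q, q', h1, h2⟩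
      · left; exact sub_trans hvw h
      · right; exact ⟨q, q', sub_trans hvw h1, h2⟩
    · right
      exact ⟨v, w, sub_refl _, hw1, hdw, hp, hDw⟩

/-- Vertices of the same depth are told apart by a set containing the upper ends of the non-tree
vertical edges, if it meets one of the two subtrees. -/
theorem vstar (B : BFS G {r} dep p) (A : Finset V)
    (hA : ∀ q q', G.Adj q q' → dep q' = dep q + 1 → p q' ≠ q →
      q ∈ A ∨ ∀ s ∈ A, ¬ Desc G dep q' s)
    {u v : V} (huv : u ≠ v) (hd : dep u = dep v)
    (hne : ∃ s ∈ A, Sub r p u s ∨ Sub r p v s) :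
    ∃ s ∈ A, (Desc G dep u s ∧ ¬ Desc G dep v s) ∨ (Desc G dep v s ∧ ¬ Desc G dep u s) := by
  classical
  obtain ⟨s0, hs0, hs0'⟩ := hne
  obtain ⟨s, hs, hmin⟩ := Finset.exists_min_image (A.filter fun s => Sub r p u s ∨ Sub r p v s) dep
    ⟨s0, Finset.mem_filter.mpr ⟨hs0, hs0'⟩⟩
  rw [Finset.mem_filter] at hs
  have key : ∀ {x y : V}, x ≠ y → dep x = dep y → Sub r p x s →
      (∀ q ∈ A, Sub r p y q → dep s ≤ dep q) → ¬ Desc G dep y s := by
    intro x y hxy hdxy hx hm hD
    rcases desc_cases B _ y s rfl hD with h | ⟨q, q', h1, h2, h3, h4, h5⟩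
    · exact hxy (sub_unique B hx h hdxy)
    · rcases hA q q' h2 h3 h4 with h6 | h6
      · have := hm q h6 h1
        have := desc_le h5
        omega
      · exact h6 s hs.1 h5
  refine ⟨s, hs.1, ?_⟩
  rcases hs.2 with h | h
  · left
    exact ⟨sub_desc B h, key huv hd h fun q hq hq' =>
      hmin q (Finset.mem_filter.mpr ⟨hq, Or.inr hq'⟩)⟩
  · right
    exact ⟨sub_desc B h, key huv.symm hd.symm h fun q hq hq' =>
      hmin q (Finset.mem_filter.mpr ⟨hq, Or.inl hq'⟩)⟩

end Pool.Agent.U435.MMD
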